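import Pool.Agent.Helper48_XQ.RegB

/-!
# Squad XQ, module U_ALTB: the group of the types B, H, E vanishes or has an exact half-integer
order
-/

set_option autoImplicit false

namespace Pool.Agent.XQ.U.H48

open MeasureTheory Filter Topology Real Set Pool.Agent.AEU Pool.Agent.AEU.H12 Pool.Agent.XQ
open Pool.Agent.XQ.U

theorem Ceta_symm (α η : ℝ) (hα : α ≠ 0) : Ceta (π / α) (α - η) = Ceta (π / α) η := by
  unfold Ceta
  have e : 2 * (π / α) * (α - η) = 2 * π - 2 * (π / α) * η := by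
    field_simp
  rw [e, cos_two_pi_sub]

theorem germB_symm (d α η κ : ℝ) (hα : α ≠ 0) :
    Pool.Agent.AEU.germB d α (α - η) κ = Pool.Agent.AEU.germB d α η κ := by
  unfold Pool.Agent.AEU.germB TB
  rw [Ceta_symm α η hα]

theorem okB_pos {p : ℝ × ℝ} (h : OkB p) : 0 < p.1 := by
  have hp := pi_pos
  rcases h with ⟨h1, _⟩ | ⟨_, h2, h3⟩ <;> linarith

/-- U_ALTB -/
theorem altB (hreg : RegBStmt) (hcore : CoreBStmt) (hlead : LeadBStmt) : AltBStmt := by
  intro L BP BQ HQ EP hL hlen hBP hBQ hHQ hEP hpw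
  obtain ⟨han, hev, hbd, hrep⟩ := hreg L BP BQ HQ EP hL hBP hBQ hHQ hEP
  rcases hlead L (gBHE BP BQ HQ EP) hL han hev hbd with h0 | ⟨j, c, hc, hl⟩
  · left
    have hcon := hcore BP BQ HQ EP hlen hBP hBQ hHQ hEP hpw (fun v => by rw [h0]; rfl)
    refine ⟨hcon, ?_⟩
    obtain ⟨hH, hE, hB⟩ := hcon
    subst hH
    subst hE
    funext κ
    rcases hB with ⟨h1, h2⟩ | ⟨p, q, h1, h2, h3, h4⟩
    · subst h1
      subst h2
      simp [SumB, SumE, SumH]
    · subst h1
      subst h2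
      have hq := (okB_pos (hBQ q (by simp))).ne'
      have e : Pool.Agent.AEU.germB (L / 2) p.1 p.2 κ = Pool.Agent.AEU.germB (L / 2) q.1 q.2 κ := by
        rcases h4 with h4 | h4
        · rw [h3, h4]
        · rw [h3, h4, germB_symm _ _ _ _ hq]
      simp [SumB, SumE, SumH, e]
  · right
    refine ⟨j, 1 / π * c, mul_ne_zero (by positivity) hc, ?_⟩
    have h1 : Lead (fun κ => 1 / π * ∫ v : ℝ, rexp (-(κ * L * cosh v)) * gBHE BP BQ HQ EP v) L
        (1 / 2 + j) (1 / π * c) := Lead.const_mul (1 / π) hl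
    refine Tendsto.congr' ?_ h1
    filter_upwards [eventually_gt_atTop 0] with κ hκ
    rw [hrep κ hκ]

end Pool.Agent.XQ.U.H48
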