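import Pool.Agent.Helper12_XQ.Stmt

/-!
# Squad XQ, module U_REGB: regularity of the densities of the types B, H, E
-/

set_option autoImplicit false

namespace Pool.Agent.XQ.U.H48

open MeasureTheory Filter Topology Real Set Pool.Agent.AEU Pool.Agent.AEU.H12 Pool.Agent.XQ
open Pool.Agent.XQ.U

/-- real analytic, even and bounded functions -/
structure Good (f : ℝ → ℝ) : Prop where
  an : AnalyticOnNhd ℝ f univ
  ev : ∀ v, f (-v) = f v
  bd : ∃ M : ℝ, ∀ v, |f v| ≤ M

theorem Good.const (c : ℝ) : Good (fun _ => c) :=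
  ⟨fun _ _ => analyticAt_const, fun _ => rfl, |c|, fun _ => le_rfl⟩

theorem Good.add {f g : ℝ → ℝ} (hf : Good f) (hg : Good g) : Good (fun v => f v + g v) := by
  obtain ⟨M, hM⟩ := hf.bd
  obtain ⟨N, hN⟩ := hg.bd
  refine ⟨fun v hv => (hf.an v hv).add (hg.an v hv), fun v => ?_, M + N, fun v => ?_⟩
  · show f (-v) + g (-v) = f v + g v
    rw [hf.ev, hg.ev]
  · exact (abs_add_le _ _).trans (add_le_add (hM v) (hN v))

theorem Good.const_mul {f : ℝ → ℝ} (c : ℝ) (hf : Good f) : Good (fun v => c * f v) := by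
  obtain ⟨M, hM⟩ := hf.bd
  refine ⟨fun v hv => analyticAt_const.mul (hf.an v hv), fun v => ?_, |c| * M, fun v => ?_⟩
  · show c * f (-v) = c * f v
    rw [hf.ev]
  · show |c * f v| ≤ |c| * M
    rw [abs_mul]
    exact mul_le_mul_of_nonneg_left (hM v) (abs_nonneg c)

theorem Good.sub {f g : ℝ → ℝ} (hf : Good f) (hg : Good g) : Good (fun v => f v - g v) := by
  have h := hf.add (hg.const_mul (-1))
  have e : (fun v => f v + -1 * g v) = fun v => f v - g v := by
    funext v; ring
  rwa [e] at h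

theorem Good.sum {ι : Type*} (l : List ι) (f : ι → ℝ → ℝ) (h : ∀ i ∈ l, Good (f i)) :
    Good (fun v => (l.map fun i => f i v).sum) := by
  induction l with
  | nil => simpa using Good.const 0
  | cons a l ih =>
    simp only [List.map_cons, List.sum_cons]
    exact (h a (by simp)).add (ih fun i hi => h i (by simp [hi]))

/-- the basic function -/
theorem good_base (c x A : ℝ) (hx : cos x ≠ 1) :
    Good (fun v => A / (cosh (c * v) - cos x)) := by
  have h1 : cos x < 1 := lt_of_le_of_ne (cos_le_one x) hx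
  have h2 : ∀ v : ℝ, 1 - cos x ≤ cosh (c * v) - cos x := fun v => by
    linarith [one_le_cosh (c * v)]
  have h3 : ∀ v : ℝ, 0 < cosh (c * v) - cos x := fun v => by linarith [h2 v]
  refine ⟨fun v _ => ?_, fun v => ?_, |A| / (1 - cos x), fun v => ?_⟩
  · refine AnalyticAt.div analyticAt_const (AnalyticAt.sub ?_ analyticAt_const) (h3 v).ne'
    exact analyticAt_cosh.comp (analyticAt_const.mul analyticAt_id)
  · show A / (cosh (c * -v) - cos x) = A / (cosh (c * v) - cos x)
    rw [mul_neg, cosh_neg]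
  · show |A / (cosh (c * v) - cos x)| ≤ |A| / (1 - cos x)
    rw [abs_div, abs_of_pos (h3 v)]
    exact div_le_div_of_nonneg_left (abs_nonneg A) (by linarith) (h2 v)

theorem good_KKf (b : ℝ) (hb : cos (b * π) ≠ 1) : Good (fun v => KKf b (2 * v)) := by
  have h := good_base (b * 2) (b * π) (b / 2 * (-sin (b * π))) hb
  have e : (fun v => b / 2 * (-sin (b * π)) / (cosh (b * 2 * v) - cos (b * π))) =
      fun v => KKf b (2 * v) := by
    funext v
    unfold KKf
    rw [mul_assoc b 2 v]
  rwa [e] at h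

theorem good_KKt (b θ : ℝ) (h1 : cos (b * π + 2 * b * θ) ≠ 1)
    (h2 : cos (b * π - 2 * b * θ) ≠ 1) : Good (fun v => KKt b θ v) := by
  have g1 := good_base (2 * b) (b * π + 2 * b * θ) (sin (b * π + 2 * b * θ)) h1
  have g2 := good_base (2 * b) (b * π - 2 * b * θ) (sin (b * π - 2 * b * θ)) h2
  exact (g1.add g2).const_mul (-(b / 4))

/-! ### the angles -/

theorem okB_cos {p : ℝ × ℝ} (h : OkB p) : cos (π / p.1 * π) ≠ 1 := by
  have hp := pi_pos
  intro hc
  obtain ⟨n, hn⟩ := (cos_eq_one_iff _).1 hc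
  rcases h with ⟨h1, h2, _⟩ | ⟨h1, h2, h3⟩
  · have h0 : 0 < p.1 := by linarith only [h1, h2]
    have e : (n : ℝ) * 2 * p.1 = π := by
      field_simp at hn
      linarith only [hn]
    have n1 : (0 : ℝ) < n := by
      by_contra hneg
      rw [not_lt] at hneg
      nlinarith only [h1, e, hp, hneg]
    have n2 : (n : ℝ) < 1 := by
      by_contra hneg
      rw [not_lt] at hneg
      nlinarith only [e, hp, hneg, h1]
    have n1' : 0 < n := by exact_mod_cast n1
    have n2' : n < 1 := by exact_mod_cast n2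
    omega
  · have h0 : 0 < p.1 := by linarith only [h1, h2, h3]
    have h5 : π < 3 * p.1 := by linarith
    have e : (n : ℝ) * 2 * p.1 = π := by
      field_simp at hn
      linarith only [hn]
    have n1 : (1 : ℝ) < n := by
      by_contra hneg
      rw [not_lt] at hneg
      nlinarith only [h1, e, hneg, h2, h3]
    have n2 : (n : ℝ) < 2 := by
      by_contra hneg
      rw [not_lt] at hneg
      nlinarith only [h2, h3, e, hp, hneg]
    have n1' : 1 < n := by exact_mod_cast n1
    have n2' : n < 2 := by exact_mod_cast n2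
    omega

theorem okH_cos {α : ℝ} (h : π / 2 < α ∧ α < π) : cos (π / α * π) ≠ 1 := by
  have hp := pi_pos
  intro hc
  obtain ⟨n, hn⟩ := (cos_eq_one_iff _).1 hc
  obtain ⟨h1, h2⟩ := h
  have h0 : 0 < α := by linarith only [h1, h2]
  have e : (n : ℝ) * 2 * α = π := by
    field_simp at hn
    linarith only [hn]
  have n1 : (0 : ℝ) < n := by
    by_contra hneg
    rw [not_lt] at hneg
    nlinarith only [h1, e, hp, hneg]
  have n2 : (n : ℝ) < 1 := by
    by_contra hneg
    rw [not_lt] at hneg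
    nlinarith only [e, hp, hneg, h1]
  have n1' : 0 < n := by exact_mod_cast n1
  have n2' : n < 1 := by exact_mod_cast n2
  omega

theorem okE_cos {p : ℝ × ℝ × ℝ} (h : OkE p) :
    cos (π / p.1 * π + 2 * (π / p.1) * p.2.1) ≠ 1 ∧
      cos (π / p.1 * π - 2 * (π / p.1) * p.2.1) ≠ 1 := by
  have hp := pi_pos
  obtain ⟨h1, h2, h3, h4, h5, h6, _⟩ := h
  have h0 : 0 < p.1 := by linarith only [h2, h4, h5]
  have h7 : p.2.1 < π / 2 := by
    rcases h6 with h6 | h6 <;> linarith only [h2, h6.1]
  constructor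
  · intro hc
    obtain ⟨n, hn⟩ := (cos_eq_one_iff _).1 hc
    have e : (n : ℝ) * 2 * p.1 = π + 2 * p.2.1 := by
      field_simp at hn
      linarith only [hn]
    have n1 : (0 : ℝ) < n := by
      by_contra hneg
      rw [not_lt] at hneg
      nlinarith only [h3, e, hp, hneg, h1]
    have n2 : (n : ℝ) < 2 := by
      by_contra hneg
      rw [not_lt] at hneg
      nlinarith only [h7, e, hp, hneg, h1]
    have n1' : 0 < n := by exact_mod_cast n1
    have n2' : n < 2 := by exact_mod_cast n2
    have n3 : n = 1 := by omega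
    rw [n3] at e
    push_cast at e
    rcases h6 with h6 | h6 <;> linarith [h6.1, h6.2]
  · intro hc
    obtain ⟨n, hn⟩ := (cos_eq_one_iff _).1 hc
    have e : (n : ℝ) * 2 * p.1 = π - 2 * p.2.1 := by
      field_simp at hn
      linarith only [hn]
    have n1 : (0 : ℝ) < n := by
      by_contra hneg
      rw [not_lt] at hneg
      nlinarith only [h7, e, hp, hneg, h1]
    have n2 : (n : ℝ) < 1 := by
      by_contra hneg
      rw [not_lt] at hneg
      nlinarith only [h3, e, hp, hneg, h1]
    have n1' : 0 < n := by exact_mod_cast n1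
    have n2' : n < 1 := by exact_mod_cast n2
    omega

/-! ### the densities -/

theorem good_fB {p : ℝ × ℝ} (h : OkB p) : Good (fB p) :=
  (Good.const _).sub (good_KKf _ (okB_cos h))

theorem good_fH {α : ℝ} (h : π / 2 < α ∧ α < π) : Good (fH α) :=
  ((Good.const _).sub (good_KKf _ (okH_cos h))).const_mul _

theorem good_fE {p : ℝ × ℝ × ℝ} (h : OkE p) : Good (fE p) :=
  ((Good.const _).sub (good_KKt _ _ (okE_cos h).1 (okE_cos h).2)).const_mul _

/-- the transform -/
noncomputable def TT (L κ : ℝ) (f : ℝ → ℝ) : ℝ := 1 / π * ∫ v : ℝ, rexp (-(κ * L * cosh v)) * f v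

theorem Good.int {L κ : ℝ} (hL : 0 < L) (hκ : 0 < κ) {f : ℝ → ℝ} (hf : Good f) :
    Integrable fun v : ℝ => rexp (-(κ * L * cosh v)) * f v := by
  obtain ⟨M, hM⟩ := hf.bd
  have hcont : Continuous f := by
    rw [continuous_iff_continuousAt]
    exact fun v => (hf.an v (mem_univ v)).continuousAt
  have hκL : 0 < κ * L / 2 := by positivity
  have hg : Integrable fun v : ℝ => rexp (-(κ * L / 2) * v ^ 2) * M :=
    (integrable_exp_neg_mul_sq hκL).mul_const _
  refine hg.mono' ?_ ?_
  · have : Continuous fun v : ℝ => rexp (-(κ * L * cosh v)) * f v := by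
      refine Continuous.mul ?_ hcont
      have := continuous_cosh
      fun_prop
    exact this.aestronglyMeasurable
  · refine Eventually.of_forall fun v => ?_
    rw [norm_mul, Real.norm_eq_abs, Real.norm_eq_abs, abs_of_pos (exp_pos _)]
    have h2 : -(κ * L * cosh v) ≤ -(κ * L / 2) * v ^ 2 := by
      have := half_sq_le v
      have : 0 < κ * L := by positivity
      nlinarith
    have := hM v
    gcongr

theorem TT_add {L κ : ℝ} (hL : 0 < L) (hκ : 0 < κ) {f g : ℝ → ℝ} (hf : Good f) (hg : Good g) :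
    TT L κ (fun v => f v + g v) = TT L κ f + TT L κ g := by
  unfold TT
  rw [← mul_add, ← integral_add (hf.int hL hκ) (hg.int hL hκ)]
  congr 2
  ext v
  ring

theorem TT_sub {L κ : ℝ} (hL : 0 < L) (hκ : 0 < κ) {f g : ℝ → ℝ} (hf : Good f) (hg : Good g) :
    TT L κ (fun v => f v - g v) = TT L κ f - TT L κ g := by
  unfold TT
  rw [← mul_sub, ← integral_sub (hf.int hL hκ) (hg.int hL hκ)]
  congr 2
  ext v
  ring

theorem TT_const_mul (L κ c : ℝ) (f : ℝ → ℝ) : TT L κ (fun v => c * f v) = c * TT L κ f := by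
  unfold TT
  rw [show (fun v => rexp (-(κ * L * cosh v)) * (c * f v)) =
    fun v => c * (rexp (-(κ * L * cosh v)) * f v) from by ext v; ring, integral_const_mul]
  ring

theorem TT_sum {L κ : ℝ} (hL : 0 < L) (hκ : 0 < κ) {ι : Type*} (l : List ι) (f : ι → ℝ → ℝ)
    (h : ∀ i ∈ l, Good (f i)) :
    TT L κ (fun v => (l.map fun i => f i v).sum) = (l.map fun i => TT L κ (f i)).sum := by
  induction l with
  | nil => simp [TT]
  | cons a l ih =>
    simp only [List.map_cons, List.sum_cons]
    rw [TT_add hL hκ (h a (by simp)) (Good.sum l f fun i hi => h i (by simp [hi])),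
      ih fun i hi => h i (by simp [hi])]

theorem TT_fB (L κ : ℝ) (p : ℝ × ℝ) : TT L κ (fB p) = germB (L / 2) p.1 p.2 κ := by
  unfold TT Pool.Agent.AEU.germB TB fB
  congr 2
  ext v
  congr 2
  ring

theorem TT_fE (L κ : ℝ) (p : ℝ × ℝ × ℝ) :
    TT L κ (fE p) = germE L (π / p.1) p.2.1 p.2.2 κ := by
  have h : TT L κ (fE p) = TT L κ (fun v => 2 * (Ceta (π / p.1) p.2.2 - KKt (π / p.1) p.2.1 v)) :=
    rfl
  rw [h, TT_const_mul]
  unfold TT germE
  ring

theorem Ceta_zero (b : ℝ) : Ceta b 0 = KKf b 0 := by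
  unfold Ceta KKf
  simp

theorem TT_fH (L κ α : ℝ) : TT L κ (fH α) = 1 / 2 * germB (L / 2) α 0 κ := by
  have h : TT L κ (fH α) = TT L κ (fun v => 1 / 2 * fB (α, 0) v) := by
    congr 1
    ext v
    show 1 / 2 * (KKf (π / α) 0 - KKf (π / α) (2 * v)) =
      1 / 2 * (Ceta (π / α) 0 - KKf (π / α) (2 * v))
    rw [Ceta_zero]
  rw [h, TT_const_mul, TT_fB]

/-- U_REGB -/
theorem regB : RegBStmt := by
  intro L BP BQ HQ EP hL hBP hBQ hHQ hEP
  have g1 := Good.sum BP (fun p v => fB p v) fun p hp => good_fB (hBP p hp)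
  have g2 := Good.sum EP (fun p v => fE p v) fun p hp => good_fE (hEP p hp)
  have g3 := Good.sum BQ (fun p v => fB p v) fun p hp => good_fB (hBQ p hp)
  have g4 := Good.sum HQ (fun α v => fH α v) fun α hα => good_fH (hHQ α hα)
  have g : Good (gBHE BP BQ HQ EP) := (g1.add g2).sub (g3.add g4)
  refine ⟨g.an, g.ev, g.bd, fun κ hκ => ?_⟩
  have e : TT L κ (gBHE BP BQ HQ EP) =
      (TT L κ (fun v => (BP.map fun p => fB p v).sum) +
        TT L κ (fun v => (EP.map fun p => fE p v).sum)) -
      (TT L κ (fun v => (BQ.map fun p => fB p v).sum) +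
        TT L κ (fun v => (HQ.map fun α => fH α v).sum)) := by
    rw [← TT_add hL hκ g1 g2, ← TT_add hL hκ g3 g4, ← TT_sub hL hκ (g1.add g2) (g3.add g4)]
    rfl
  show _ = TT L κ (gBHE BP BQ HQ EP)
  rw [e, TT_sum hL hκ BP (fun p v => fB p v) fun p hp => good_fB (hBP p hp),
    TT_sum hL hκ EP (fun p v => fE p v) fun p hp => good_fE (hEP p hp),
    TT_sum hL hκ BQ (fun p v => fB p v) fun p hp => good_fB (hBQ p hp),
    TT_sum hL hκ HQ (fun α v => fH α v) fun α hα => good_fH (hHQ α hα)]
  unfold SumB SumE SumH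
  congr 2
  · congr 1
    refine List.map_congr_left fun p _ => ?_
    exact (TT_fB L κ p).symm
  · congr 1
    refine List.map_congr_left fun p _ => ?_
    exact (TT_fE L κ p).symm
  · congr 1
    refine List.map_congr_left fun p _ => ?_
    exact (TT_fB L κ p).symm
  · congr 1
    refine List.map_congr_left fun α _ => ?_
    exact (TT_fH L κ α).symm

end Pool.Agent.XQ.U.H48
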