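import Pool.Agent.Helper35_XQ.Stmt

/-!
Squad XQ, module GI_LST: combinatorics of the labels of lists.
-/

set_option autoImplicit false

namespace Pool.Agent.XQ.GI.H48

open Pool.Agent.XQ.GI

theorem wd_ext {v w : Wd} (h : v.1 = w.1) : v = w := Subtype.ext h

theorem em_val : em.1 = [] := rfl

theorem dropWhile_suffix_mono {α : Type} (p : α → Bool) {v w : List α} (h : v <:+ w) :
    v.dropWhile p <:+ w.dropWhile p := by
  obtain ⟨q, rfl⟩ := h
  induction q with
  | nil => exact List.suffix_refl _
  | cons a q ih =>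
    rw [List.cons_append, List.dropWhile_cons]
    split_ifs with ha
    · exact ih
    · exact (List.dropWhile_suffix p).trans ((List.suffix_append q v).trans (List.suffix_cons a _))

theorem dropWhile_sublist_mono {α : Type} (p : α → Bool) {v w : List α} (h : v.Sublist w) :
    (v.dropWhile p).Sublist (w.dropWhile p) := by
  induction h with
  | slnil => exact List.Sublist.refl _
  | cons a h ih =>
    rw [List.dropWhile_cons]
    split_ifs with ha
    · exact ih
    · exact (List.dropWhile_sublist p).trans (h.cons a)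
  | cons_cons a h ih =>
    rw [List.dropWhile_cons, List.dropWhile_cons]
    split_ifs with ha
    · exact ih
    · exact h.cons_cons a

theorem rd_val (c : Finset (Fin 3)) (w : Wd) :
    (rd c w).1 = w.1.dropWhile (fun s => decide (s ∈ c)) := rfl

theorem rd_em (c : Finset (Fin 3)) : rd c em = em := wd_ext rfl

theorem run_cons (c : Finset (Fin 3)) (l : List (Finset (Fin 3))) (w : Wd) :
    run (c :: l) w = run l (rd c w) := rfl

theorem run_nil (w : Wd) : run [] w = w := rfl

theorem run_append (l l' : List (Finset (Fin 3))) (w : Wd) :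
    run (l ++ l') w = run l' (run l w) := by
  unfold run
  rw [List.foldl_append]

theorem run_em (l : List (Finset (Fin 3))) : run l em = em := by
  induction l with
  | nil => rfl
  | cons c l ih => rw [run_cons, rd_em, ih]

theorem run_suffix (l : List (Finset (Fin 3))) (w : Wd) : (run l w).1 <:+ w.1 := by
  induction l generalizing w with
  | nil => exact List.suffix_refl _
  | cons c l ih =>
    rw [run_cons]
    exact (ih _).trans (List.dropWhile_suffix _)

theorem run_suffix_mono (l : List (Finset (Fin 3))) (v w : Wd) (h : v.1 <:+ w.1) :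
    (run l v).1 <:+ (run l w).1 := by
  induction l generalizing v w with
  | nil => exact h
  | cons c l ih =>
    rw [run_cons, run_cons]
    exact ih _ _ (dropWhile_suffix_mono _ h)

theorem run_sublist_mono (l : List (Finset (Fin 3))) (v w : Wd) (h : v.1.Sublist w.1) :
    (run l v).1.Sublist (run l w).1 := by
  induction l generalizing v w with
  | nil => exact h
  | cons c l ih =>
    rw [run_cons, run_cons]
    exact ih _ _ (dropWhile_sublist_mono _ h)

theorem rd_sg_mem {c : Finset (Fin 3)} {s : Fin 3} (h : s ∈ c) : rd c (sg s) = em := by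
  apply wd_ext
  rw [rd_val]
  simp [sg, em, h]

theorem rd_sg_not_mem {c : Finset (Fin 3)} {s : Fin 3} (h : s ∉ c) : rd c (sg s) = sg s := by
  apply wd_ext
  rw [rd_val]
  simp [sg, h]

theorem sg_ne_em (s : Fin 3) : sg s ≠ em := by
  intro h
  have := congrArg Subtype.val h
  simp [sg, em] at this

theorem run_sg (l : List (Finset (Fin 3))) (s : Fin 3) :
    run l (sg s) = em ↔ ∃ c ∈ l, s ∈ c := by
  induction l with
  | nil =>
    rw [run_nil]
    simp [sg_ne_em]
  | cons c l ih =>
    rw [run_cons]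
    by_cases h : s ∈ c
    · rw [rd_sg_mem h, run_em]
      simp [h]
    · rw [rd_sg_not_mem h, ih]
      simp [h]

theorem mem_vs (f : Lb) (s : Fin 3) : s ∈ vs f ↔ f (sg s) = em := by
  unfold vs
  simp

theorem mem_vs_run (l : List (Finset (Fin 3))) (s : Fin 3) :
    s ∈ vs (run l) ↔ ∃ c ∈ l, s ∈ c := by
  rw [mem_vs, run_sg]

theorem mem_vs_of_em (f : Lb) (hf : Rz f) (w : Wd) (s : Fin 3) (h : f w = em) (hs : s ∈ w.1) :
    s ∈ vs f := by
  obtain ⟨l, -, rfl⟩ := hf
  rw [mem_vs]
  have h1 : (sg s).1.Sublist w.1 := by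
    show [s].Sublist w.1
    rw [List.singleton_sublist]
    exact hs
  have h2 := run_sublist_mono l _ _ h1
  rw [h] at h2
  exact wd_ext (List.sublist_nil.1 h2)

/-- every realizable label which visits all letters reads some word with these letters -/
theorem exists_word (l : List (Finset (Fin 3))) :
    ∃ w : Wd, (∀ s, s ∈ w.1 ↔ ∃ c ∈ l, s ∈ c) ∧ run l w = em := by
  induction l with
  | nil => exact ⟨em, by simp [em], rfl⟩
  | cons c l ih =>
    obtain ⟨w', h1, h2⟩ := ih
    have hnd : ((c.filter fun s => s ∉ w'.1).toList ++ w'.1).Nodup := by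
      rw [List.nodup_append]
      refine ⟨Finset.nodup_toList _, w'.2, ?_⟩
      intro a ha b hb hab
      rw [Finset.mem_toList, Finset.mem_filter] at ha
      rw [hab] at ha
      exact ha.2 hb
    refine ⟨⟨(c.filter fun s => s ∉ w'.1).toList ++ w'.1, hnd⟩, ?_, ?_⟩
    · intro s
      rw [List.mem_append, Finset.mem_toList, Finset.mem_filter, h1]
      constructor
      · rintro (⟨h3, -⟩ | ⟨d, hd, hs⟩)
        · exact ⟨c, List.mem_cons_self, h3⟩
        · exact ⟨d, List.mem_cons_of_mem _ hd, hs⟩
      · rintro ⟨d, hd, hs⟩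
        rcases List.mem_cons.1 hd with rfl | hd
        · by_cases h3 : s ∈ w'.1
          · right
            exact (h1 s).1 h3
          · left
            exact ⟨hs, by rwa [← h1]⟩
        · right
          exact ⟨d, hd, hs⟩
    · rw [run_cons]
      have h3 : (rd c ⟨(c.filter fun s => s ∉ w'.1).toList ++ w'.1, hnd⟩).1 <:+ w'.1 := by
        rw [rd_val]
        have h4 : List.dropWhile (fun s => decide (s ∈ c))
            ((c.filter fun s => s ∉ w'.1).toList ++ w'.1) =
            List.dropWhile (fun s => decide (s ∈ c)) w'.1 := by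
          rw [List.dropWhile_append]
          have h5 : List.dropWhile (fun s => decide (s ∈ c))
              (c.filter fun s => s ∉ w'.1).toList = [] := by
            rw [List.dropWhile_eq_nil_iff]
            intro x hx
            rw [Finset.mem_toList, Finset.mem_filter] at hx
            simp [hx.1]
          rw [h5]
          simp
        show List.dropWhile (fun s => decide (s ∈ c))
            ((c.filter fun s => s ∉ w'.1).toList ++ w'.1) <:+ w'.1
        rw [h4]
        exact List.dropWhile_suffix _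
      have h6 := run_suffix_mono l _ _ h3
      rw [h2] at h6
      exact wd_ext (List.suffix_nil.1 h6)

theorem perm_word (w : Wd) (h : ∀ s, s ∈ w.1) :
    w = w012 ∨ w = w120 ∨ w = w201 ∨ w = w210 ∨ w = w102 ∨ w = w021 := by
  have h1 : w.1.length = 3 := by
    rw [← List.toFinset_card_of_nodup w.2]
    have : w.1.toFinset = Finset.univ := by
      ext s
      simp [h s]
    rw [this]
    rfl
  obtain ⟨a, b, c, habc⟩ := List.length_eq_three.1 h1
  have hnd : [a, b, c].Nodup := by
    rw [← habc]
    exact w.2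
  have hw : w = ⟨[a, b, c], hnd⟩ := wd_ext habc
  rw [hw]
  clear hw habc h1 h
  revert hnd
  fin_cases a <;> fin_cases b <;> fin_cases c <;>
    simp [w012, w120, w201, w210, w102, w021]

theorem lp_lm_iff (f : Lb) (hf : Rz f) : Lp f ∨ Lm f ↔ vs f = Finset.univ := by
  constructor
  · intro h
    rw [Finset.eq_univ_iff_forall]
    have key : ∀ w : Wd, (∀ s, s ∈ w.1) → f w = em → ∀ s, s ∈ vs f :=
      fun w hw hfw s => mem_vs_of_em f hf w s hfw (hw s)
    rcases h with (h | h | h) | (h | h | h)
    · exact key _ (by decide) h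
    · exact key _ (by decide) h
    · exact key _ (by decide) h
    · exact key _ (by decide) h
    · exact key _ (by decide) h
    · exact key _ (by decide) h
  · intro h
    obtain ⟨l, hl, rfl⟩ := hf
    obtain ⟨w, hw1, hw2⟩ := exists_word l
    have h1 : ∀ s, s ∈ w.1 := by
      intro s
      rw [hw1, ← mem_vs_run, h]
      exact Finset.mem_univ s
    unfold Lp Lm
    rcases perm_word w h1 with rfl | rfl | rfl | rfl | rfl | rfl
    · exact Or.inl (Or.inl hw2)
    · exact Or.inl (Or.inr (Or.inl hw2))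
    · exact Or.inl (Or.inr (Or.inr hw2))
    · exact Or.inr (Or.inl hw2)
    · exact Or.inr (Or.inr (Or.inl hw2))
    · exact Or.inr (Or.inr (Or.inr hw2))

theorem pw3_em_iff (σ : Equiv.Perm (Fin 3)) (w : Wd) : pw3 σ w = em ↔ w = em := by
  constructor
  · intro h
    have h1 := congrArg Subtype.val h
    apply wd_ext
    simpa [pw3, em] using h1
  · rintro rfl
    rfl

theorem pw3_mul (σ τ : Equiv.Perm (Fin 3)) (w : Wd) : pw3 σ (pw3 τ w) = pw3 (σ * τ) w := by
  apply wd_ext
  simp [pw3, List.map_map]

theorem pw3_one (w : Wd) : pw3 1 w = w := by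
  apply wd_ext
  simp [pw3]

theorem rd_map (σ : Equiv.Perm (Fin 3)) (c : Finset (Fin 3)) (w : Wd) :
    rd (c.map σ.toEmbedding) (pw3 σ w) = pw3 σ (rd c w) := by
  apply wd_ext
  rw [rd_val]
  show List.dropWhile _ (w.1.map σ) = (rd c w).1.map σ
  rw [rd_val, List.dropWhile_map]
  congr 2
  funext s
  simp

theorem run_map (σ : Equiv.Perm (Fin 3)) (l : List (Finset (Fin 3))) (w : Wd) :
    run (l.map fun c => c.map σ.toEmbedding) (pw3 σ w) = pw3 σ (run l w) := by
  induction l generalizing w with
  | nil => rfl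
  | cons c l ih => rw [List.map_cons, run_cons, run_cons, rd_map, ih]

theorem rz_pl (σ : Equiv.Perm (Fin 3)) (f : Lb) (hf : Rz f) : Rz (pl σ f) := by
  obtain ⟨l, hl, rfl⟩ := hf
  refine ⟨l.map fun c => c.map σ.toEmbedding, by simpa using hl, ?_⟩
  funext w
  have h := run_map σ l (pw3 σ⁻¹ w)
  rw [pw3_mul, mul_inv_cancel, pw3_one] at h
  rw [h]
  rfl

theorem pl_pl (f : Lb) : pl (Equiv.swap 0 2) (pl (Equiv.swap 0 2) f) = f := by
  funext w
  unfold pl
  rw [pw3_mul, pw3_mul, Equiv.swap_inv, Equiv.swap_mul_self, pw3_one, pw3_one]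

theorem lp_iff_lm (f : Lb) : Lp f ↔ Lm (pl (Equiv.swap 0 2) f) := by
  unfold Lp Lm pl
  rw [pw3_em_iff, pw3_em_iff, pw3_em_iff, Equiv.swap_inv]
  have e1 : pw3 (Equiv.swap 0 2) w210 = w012 := by decide
  have e2 : pw3 (Equiv.swap 0 2) w102 = w120 := by decide
  have e3 : pw3 (Equiv.swap 0 2) w021 = w201 := by decide
  rw [e1, e2, e3]

theorem rz_comp (f g : Lb) (hf : Rz f) (hg : Rz g) : Rz (fun w => g (f w)) := by
  obtain ⟨l, hl, rfl⟩ := hf
  obtain ⟨l', hl', rfl⟩ := hg
  refine ⟨l ++ l', by simp [hl], ?_⟩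
  funext w
  rw [run_append]

theorem vs_comp (f g : Lb) (hf : Rz f) (hg : Rz g) : vs (fun w => g (f w)) = vs f ∪ vs g := by
  obtain ⟨l, hl, rfl⟩ := hf
  obtain ⟨l', hl', rfl⟩ := hg
  have h : (fun w => run l' (run l w)) = run (l ++ l') := by
    funext w
    rw [run_append]
  rw [h]
  ext s
  rw [Finset.mem_union, mem_vs_run, mem_vs_run, mem_vs_run]
  simp only [List.mem_append]
  constructor
  · rintro ⟨c, h1 | h1, h2⟩
    · exact Or.inl ⟨c, h1, h2⟩
    · exact Or.inr ⟨c, h1, h2⟩
  · rintro (⟨c, h1, h2⟩ | ⟨c, h1, h2⟩)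
    · exact ⟨c, Or.inl h1, h2⟩
    · exact ⟨c, Or.inr h1, h2⟩

theorem lst : LstStatement := by
  refine ⟨rz_comp, ?_, ?_, ?_, ?_, vs_comp, mem_vs_of_em, lp_lm_iff, mem_vs_run, ?_⟩
  · rintro _ ⟨l, -, rfl⟩
    exact run_em l
  · rintro _ ⟨l, -, rfl⟩
    exact run_suffix l
  · rintro _ ⟨l, -, rfl⟩
    exact run_suffix_mono l
  · rintro _ ⟨l, -, rfl⟩
    exact run_sublist_mono l
  · intro f
    refine ⟨lp_iff_lm f, rz_pl _ f, fun h => ?_⟩
    have := rz_pl (Equiv.swap 0 2) _ h
    rwa [pl_pl] at this

end Pool.Agent.XQ.GI.H48
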