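import Pool.Agent.Helper35_XQ.Stmt
import Pool.Agent.Helper48_XQ.Lst
import Pool.Agent.Helper44_BLK.Psg

/-!
Squad XQ, module GI_KFB: basic facts on the kernels of chains.
-/

set_option autoImplicit false

namespace Pool.Agent.XQ.GI.H48

open MeasureTheory Complex Filter Topology Pool.Agent.H62T Pool.Agent.H60K Pool.Agent.XQ.GI
open Pool.Agent.AEU.H44 (G_ck G_int2 G_nonneg G_meas3)
open scoped ENNReal NNReal

theorem mem_lb (u : Fin 3 → ℂ) (h : Fin 3 → ℝ) (x : ℂ) (s : Fin 3) :
    s ∈ lb u h x ↔ h s ≤ ip (u s) x := by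
  unfold lb
  simp

theorem meas_lb (u : Fin 3 → ℂ) (h : Fin 3 → ℝ) (c : Finset (Fin 3)) :
    MeasurableSet {x : ℂ | lb u h x = c} := by
  have h1 : {x : ℂ | lb u h x = c} = ⋂ s : Fin 3, {x : ℂ | h s ≤ ip (u s) x ↔ s ∈ c} := by
    ext x
    simp only [Set.mem_setOf_eq, Set.mem_iInter]
    constructor
    · rintro rfl s
      exact (mem_lb u h x s).symm
    · intro hx
      ext s
      rw [mem_lb]
      exact hx s
  rw [h1]
  refine MeasurableSet.iInter fun s => ?_
  have h2 : MeasurableSet {x : ℂ | h s ≤ ip (u s) x} := by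
    apply measurableSet_le measurable_const
    unfold ip
    exact (Complex.measurable_re.const_mul _).add (Complex.measurable_im.const_mul _)
  by_cases hs : s ∈ c
  · simp only [hs, iff_true]
    exact h2
  · simp only [hs, iff_false]
    exact h2.compl

theorem meas_lb2 (u : Fin 3 → ℂ) (h : Fin 3 → ℝ) (Q : Finset (Fin 3) → Finset (Fin 3) → Prop) :
    MeasurableSet {p : ℝ × ℂ × ℂ | Q (lb u h p.2.1) (lb u h p.2.2)} := by
  have h1 : {p : ℝ × ℂ × ℂ | Q (lb u h p.2.1) (lb u h p.2.2)} =
      ⋃ (c : Finset (Fin 3)) (c' : Finset (Fin 3)) (_ : Q c c'),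
        {p : ℝ × ℂ × ℂ | lb u h p.2.1 = c} ∩ {p : ℝ × ℂ × ℂ | lb u h p.2.2 = c'} := by
    ext p
    simp only [Set.mem_setOf_eq, Set.mem_iUnion, Set.mem_inter_iff, exists_prop]
    constructor
    · intro hp
      exact ⟨_, _, hp, rfl, rfl⟩
    · rintro ⟨c, c', hq, rfl, rfl⟩
      exact hq
  rw [h1]
  refine MeasurableSet.iUnion fun c => MeasurableSet.iUnion fun c' => MeasurableSet.iUnion fun _ => ?_
  exact ((meas_lb u h c).preimage (measurable_fst.comp measurable_snd)).inter
    ((meas_lb u h c').preimage (measurable_snd.comp measurable_snd))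

open Classical in
theorem sum_comp (W : Lb → ℝ) (I : Lb → Lb → ℝ) :
    ∑ f : Lb, W f * (∑ f₁ : Lb, ∑ f₂ : Lb, if f = (fun w => f₂ (f₁ w)) then I f₁ f₂ else 0) =
      ∑ f₁ : Lb, ∑ f₂ : Lb, W (fun w => f₂ (f₁ w)) * I f₁ f₂ := by
  simp_rw [Finset.mul_sum]
  rw [Finset.sum_comm]
  refine Finset.sum_congr rfl fun f₁ _ => ?_
  rw [Finset.sum_comm]
  refine Finset.sum_congr rfl fun f₂ _ => ?_
  rw [Finset.sum_eq_single (fun w => f₂ (f₁ w))]
  · rw [if_pos rfl]
  · intro b _ hb
    rw [if_neg hb, mul_zero]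
  · intro hb
    exact absurd (Finset.mem_univ _) hb

theorem kf_basic (u : Fin 3 → ℂ) (h : Fin 3 → ℝ) (m : ℕ) :
    (∀ f, Measurable (fun p : ℝ × ℂ × ℂ => KF u h m f p.1 p.2.1 p.2.2)) ∧
    ∀ (t : ℝ) (x y : ℂ), 0 < t →
    (∀ f, 0 ≤ KF u h m f t x y) ∧ (∀ f, KF u h m f t x y ≠ 0 → Rz f) ∧
    (∑ f : Lb, KF u h m f t x y = G t (x - y)) := by
  classical
  induction m with
  | zero =>
    refine ⟨fun f => ?_, fun t x y ht => ⟨fun f => ?_, fun f hf => ?_, ?_⟩⟩
    · unfold KF
      exact Measurable.ite (meas_lb2 u h (fun c c' => f = (fun w => rd c' (rd c w)))) G_meas3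
        measurable_const
    · unfold KF
      split_ifs
      · exact G_nonneg ht _
      · exact le_refl 0
    · unfold KF at hf
      split_ifs at hf with h1
      · refine ⟨[lb u h x, lb u h y], by simp, ?_⟩
        rw [h1]
        rfl
      · exact absurd rfl hf
    · unfold KF
      rw [Finset.sum_ite_eq' Finset.univ _ (fun _ => G t (x - y)), if_pos (Finset.mem_univ _)]
  | succ m ih =>
    obtain ⟨im, ib⟩ := ih
    have ile : ∀ (t : ℝ) (x y : ℂ), 0 < t → ∀ f, KF u h m f t x y ≤ G t (x - y) := by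
      intro t x y ht f
      rw [← (ib t x y ht).2.2]
      exact Finset.single_le_sum (f := fun f => KF u h m f t x y)
        (fun g _ => (ib t x y ht).1 g) (Finset.mem_univ f)
    refine ⟨fun f => ?_, fun t x y ht => ?_⟩
    · unfold KF
      refine Finset.measurable_sum _ fun f₁ _ => Finset.measurable_sum _ fun f₂ _ => ?_
      split_ifs
      · have h1 : Measurable fun q : (ℝ × ℂ × ℂ) × ℂ =>
            KF u h m f₁ (q.1.1 / 2) q.1.2.1 q.2 * KF u h m f₂ (q.1.1 / 2) q.2 q.1.2.2 := by
          have e1 : Measurable fun q : (ℝ × ℂ × ℂ) × ℂ => ((q.1.1 / 2, q.1.2.1, q.2) : ℝ × ℂ × ℂ) :=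
            ((measurable_fst.comp measurable_fst).div_const 2).prodMk
              ((measurable_fst.comp (measurable_snd.comp measurable_fst)).prodMk measurable_snd)
          have e2 : Measurable fun q : (ℝ × ℂ × ℂ) × ℂ => ((q.1.1 / 2, q.2, q.1.2.2) : ℝ × ℂ × ℂ) :=
            ((measurable_fst.comp measurable_fst).div_const 2).prodMk
              (measurable_snd.prodMk (measurable_snd.comp (measurable_snd.comp measurable_fst)))
          exact ((im f₁).comp e1).mul ((im f₂).comp e2)
        exact (h1.stronglyMeasurable.integral_prod_right' (ν := volume)).measurable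
      · exact measurable_const
    · have ht2 : 0 < t / 2 := by linarith
      have hm1 : ∀ f, Measurable fun z => KF u h m f (t / 2) x z := fun f =>
        (im f).comp (measurable_const.prodMk (measurable_const.prodMk measurable_id))
      have hm2 : ∀ f, Measurable fun z => KF u h m f (t / 2) z y := fun f =>
        (im f).comp (measurable_const.prodMk (measurable_id.prodMk measurable_const))
      have hint : ∀ f₁ f₂, Integrable fun z =>
          KF u h m f₁ (t / 2) x z * KF u h m f₂ (t / 2) z y := by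
        intro f₁ f₂
        refine (G_int2 ht2 ht2 x y).mono' ((hm1 f₁).mul (hm2 f₂)).aestronglyMeasurable
          (Eventually.of_forall fun z => ?_)
        have e1 := (ib (t / 2) x z ht2).1 f₁
        have e2 := (ib (t / 2) z y ht2).1 f₂
        rw [Real.norm_of_nonneg (mul_nonneg e1 e2)]
        exact mul_le_mul (ile _ x z ht2 f₁) (ile _ z y ht2 f₂) e2 (G_nonneg ht2 _)
      refine ⟨fun f => ?_, fun f hf => ?_, ?_⟩
      · unfold KF
        refine Finset.sum_nonneg fun f₁ _ => Finset.sum_nonneg fun f₂ _ => ?_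
        split_ifs
        · exact integral_nonneg fun z =>
            mul_nonneg ((ib (t / 2) x z ht2).1 f₁) ((ib (t / 2) z y ht2).1 f₂)
        · exact le_refl 0
      · unfold KF at hf
        obtain ⟨f₁, -, hf₁⟩ := Finset.exists_ne_zero_of_sum_ne_zero hf
        obtain ⟨f₂, -, hf₂⟩ := Finset.exists_ne_zero_of_sum_ne_zero hf₁
        split_ifs at hf₂ with h1
        · have h2 : ∃ z, KF u h m f₁ (t / 2) x z * KF u h m f₂ (t / 2) z y ≠ 0 := by
            by_contra hcon
            push_neg at hcon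
            apply hf₂
            simp only [hcon, integral_zero]
          obtain ⟨z, hz⟩ := h2
          rw [h1]
          exact rz_comp f₁ f₂ ((ib (t / 2) x z ht2).2.1 f₁ (left_ne_zero_of_mul hz))
            ((ib (t / 2) z y ht2).2.1 f₂ (right_ne_zero_of_mul hz))
        · exact absurd rfl hf₂
      · have h1 := sum_comp (fun _ => 1)
          (fun f₁ f₂ => ∫ z, KF u h m f₁ (t / 2) x z * KF u h m f₂ (t / 2) z y)
        simp only [one_mul] at h1
        have h2 : ∑ f : Lb, KF u h (m + 1) f t x y = ∑ f : Lb, ∑ f₁ : Lb, ∑ f₂ : Lb,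
            if f = (fun w => f₂ (f₁ w)) then
              ∫ z, KF u h m f₁ (t / 2) x z * KF u h m f₂ (t / 2) z y else 0 := by
          refine Finset.sum_congr rfl fun f _ => ?_
          rw [KF]
        rw [h2, h1]
        have h3 : ∀ f₁ : Lb, ∑ f₂ : Lb,
            ∫ z, KF u h m f₁ (t / 2) x z * KF u h m f₂ (t / 2) z y =
            ∫ z, KF u h m f₁ (t / 2) x z * G (t / 2) (z - y) := by
          intro f₁
          rw [← integral_finset_sum _ (fun f₂ _ => hint f₁ f₂)]
          congr 1
          funext z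
          rw [← Finset.mul_sum, (ib (t / 2) z y ht2).2.2]
        simp_rw [h3]
        have hint2 : ∀ f₁, Integrable fun z => KF u h m f₁ (t / 2) x z * G (t / 2) (z - y) := by
          intro f₁
          have h4 : (fun z => KF u h m f₁ (t / 2) x z * G (t / 2) (z - y)) =
              fun z => ∑ f₂ : Lb, KF u h m f₁ (t / 2) x z * KF u h m f₂ (t / 2) z y := by
            funext z
            rw [← Finset.mul_sum, (ib (t / 2) z y ht2).2.2]
          rw [h4]
          exact integrable_finset_sum _ (fun f₂ _ => hint f₁ f₂)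
        rw [← integral_finset_sum _ (fun f₁ _ => hint2 f₁)]
        have h5 : (fun z => ∑ f₁ : Lb, KF u h m f₁ (t / 2) x z * G (t / 2) (z - y)) =
            fun z => G (t / 2) (x - z) * G (t / 2) (z - y) := by
          funext z
          rw [← Finset.sum_mul, (ib (t / 2) x z ht2).2.2]
        rw [h5, G_ck ht2 ht2 x y]
        congr 1
        ring

theorem kf_le (u : Fin 3 → ℂ) (h : Fin 3 → ℝ) (m : ℕ) (f : Lb) (t : ℝ) (x y : ℂ) (ht : 0 < t) :
    KF u h m f t x y ≤ G t (x - y) := by
  have ib := (kf_basic u h m).2 t x y ht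
  rw [← ib.2.2]
  exact Finset.single_le_sum (f := fun f => KF u h m f t x y) (fun g _ => ib.1 g)
    (Finset.mem_univ f)

theorem kf_meas_r (u : Fin 3 → ℂ) (h : Fin 3 → ℝ) (m : ℕ) (f : Lb) (t : ℝ) (x : ℂ) :
    Measurable fun z => KF u h m f t x z :=
  ((kf_basic u h m).1 f).comp (measurable_const.prodMk (measurable_const.prodMk measurable_id))

theorem kf_meas_l (u : Fin 3 → ℂ) (h : Fin 3 → ℝ) (m : ℕ) (f : Lb) (t : ℝ) (y : ℂ) :
    Measurable fun z => KF u h m f t z y :=
  ((kf_basic u h m).1 f).comp (measurable_const.prodMk (measurable_id.prodMk measurable_const))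

theorem kf_int2 (u : Fin 3 → ℂ) (h : Fin 3 → ℝ) (m : ℕ) (f₁ f₂ : Lb) (s t : ℝ) (x y : ℂ)
    (hs : 0 < s) (ht : 0 < t) :
    Integrable fun z => KF u h m f₁ s x z * KF u h m f₂ t z y := by
  refine (G_int2 hs ht x y).mono' ((kf_meas_r u h m f₁ s x).mul
    (kf_meas_l u h m f₂ t y)).aestronglyMeasurable (Eventually.of_forall fun z => ?_)
  have e1 := ((kf_basic u h m).2 s x z hs).1 f₁
  have e2 := ((kf_basic u h m).2 t z y ht).1 f₂
  rw [Real.norm_of_nonneg (mul_nonneg e1 e2)]
  exact mul_le_mul (kf_le u h m f₁ s x z hs) (kf_le u h m f₂ t z y ht) e2 (G_nonneg hs _)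

theorem mem_Dm (u : Fin 3 → ℂ) (h : Fin 3 → ℝ) (B : Finset (Fin 3)) (x : ℂ) :
    x ∈ Dm u h B ↔ Disjoint (lb u h x) B := by
  rw [Finset.disjoint_left]
  constructor
  · intro hx s hs hB
    rw [mem_lb] at hs
    exact absurd (hx s hB) (not_lt.2 hs)
  · intro hx s hB
    by_contra hcon
    exact hx ((mem_lb u h x s).2 (not_lt.1 hcon)) hB

theorem kf_ker (u : Fin 3 → ℂ) (h : Fin 3 → ℝ) (m : ℕ) (t : ℝ) (x y : ℂ) (ht : 0 < t)
    (B : Finset (Fin 3)) : Ker (Dm u h B) m t x y
      = ∑ f : Lb, if Disjoint (vs f) B then KF u h m f t x y else 0 := by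
  classical
  induction m generalizing t x y with
  | zero =>
    have h1 : ∀ f : Lb, (if Disjoint (vs f) B then KF u h 0 f t x y else 0) =
        if f = (fun w => rd (lb u h y) (rd (lb u h x) w)) then
          (if Disjoint (vs f) B then G t (x - y) else 0) else 0 := by
      intro f
      unfold KF
      split_ifs <;> rfl
    simp_rw [h1]
    rw [Finset.sum_ite_eq' Finset.univ _ (fun f => if Disjoint (vs f) B then G t (x - y) else 0),
      if_pos (Finset.mem_univ _)]
    have h2 : vs (fun w => rd (lb u h y) (rd (lb u h x) w)) = lb u h x ∪ lb u h y := by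
      have h3 : (fun w => rd (lb u h y) (rd (lb u h x) w)) = run [lb u h x, lb u h y] := rfl
      rw [h3]
      ext s
      rw [mem_vs_run, Finset.mem_union]
      simp
    have hd : Disjoint (vs fun w => rd (lb u h y) (rd (lb u h x) w)) B ↔
        (x ∈ Dm u h B ∧ y ∈ Dm u h B) := by
      rw [h2, Finset.disjoint_union_left, ← mem_Dm, ← mem_Dm]
    unfold Ker
    by_cases hx : x ∈ Dm u h B
    · by_cases hy : y ∈ Dm u h B
      · rw [if_pos (hd.2 ⟨hx, hy⟩)]
        simp [hx, hy]
      · rw [if_neg (fun hc => hy (hd.1 hc).2)]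
        simp [hy]
    · rw [if_neg (fun hc => hx (hd.1 hc).1)]
      simp [hx]
  | succ m ih =>
    have ht2 : 0 < t / 2 := by linarith
    have h1 : ∑ f : Lb, (if Disjoint (vs f) B then KF u h (m + 1) f t x y else 0) =
        ∑ f : Lb, (if Disjoint (vs f) B then (1 : ℝ) else 0) *
          (∑ f₁ : Lb, ∑ f₂ : Lb, if f = (fun w => f₂ (f₁ w)) then
              ∫ z, KF u h m f₁ (t / 2) x z * KF u h m f₂ (t / 2) z y else 0) := by
      refine Finset.sum_congr rfl fun f _ => ?_
      rw [KF, ite_mul, one_mul, zero_mul]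
    rw [h1, sum_comp]
    have h2 : ∀ f₁ f₂ : Lb,
        (if Disjoint (vs fun w => f₂ (f₁ w)) B then (1 : ℝ) else 0) *
          (∫ z, KF u h m f₁ (t / 2) x z * KF u h m f₂ (t / 2) z y) =
        ∫ z, (if Disjoint (vs f₁) B then KF u h m f₁ (t / 2) x z else 0) *
          (if Disjoint (vs f₂) B then KF u h m f₂ (t / 2) z y else 0) := by
      intro f₁ f₂
      by_cases hr : Rz f₁ ∧ Rz f₂
      · have hd : Disjoint (vs fun w => f₂ (f₁ w)) B ↔ (Disjoint (vs f₁) B ∧ Disjoint (vs f₂) B) := by
          rw [vs_comp f₁ f₂ hr.1 hr.2, Finset.disjoint_union_left]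
        by_cases d1 : Disjoint (vs f₁) B
        · by_cases d2 : Disjoint (vs f₂) B
          · rw [if_pos (hd.2 ⟨d1, d2⟩), one_mul]
            simp only [if_pos d1, if_pos d2]
          · rw [if_neg (fun hc => d2 (hd.1 hc).2), zero_mul]
            simp only [if_neg d2, mul_zero, integral_zero]
        · rw [if_neg (fun hc => d1 (hd.1 hc).1), zero_mul]
          simp only [if_neg d1, zero_mul, integral_zero]
      · have hz : ∀ z, KF u h m f₁ (t / 2) x z * KF u h m f₂ (t / 2) z y = 0 := by
          intro z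
          by_contra hcon
          apply hr
          exact ⟨((kf_basic u h m).2 (t / 2) x z ht2).2.1 f₁ (left_ne_zero_of_mul hcon),
            ((kf_basic u h m).2 (t / 2) z y ht2).2.1 f₂ (right_ne_zero_of_mul hcon)⟩
        have hz2 : ∀ z, (if Disjoint (vs f₁) B then KF u h m f₁ (t / 2) x z else 0) *
            (if Disjoint (vs f₂) B then KF u h m f₂ (t / 2) z y else 0) = 0 := by
          intro z
          split_ifs
          · exact hz z
          · exact mul_zero _
          · exact zero_mul _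
          · exact zero_mul _
        simp only [hz, hz2, integral_zero, mul_zero]
    simp_rw [h2]
    have hint : ∀ f₁ f₂ : Lb, Integrable fun z =>
        (if Disjoint (vs f₁) B then KF u h m f₁ (t / 2) x z else 0) *
          (if Disjoint (vs f₂) B then KF u h m f₂ (t / 2) z y else 0) := by
      intro f₁ f₂
      by_cases d1 : Disjoint (vs f₁) B
      · by_cases d2 : Disjoint (vs f₂) B
        · simp only [d1, d2, if_true]
          exact kf_int2 u h m f₁ f₂ _ _ x y ht2 ht2
        · simp [d2]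
      · simp [d1]
    have h3 : ∀ f₁ : Lb, ∑ f₂ : Lb,
        ∫ z, (if Disjoint (vs f₁) B then KF u h m f₁ (t / 2) x z else 0) *
          (if Disjoint (vs f₂) B then KF u h m f₂ (t / 2) z y else 0) =
        ∫ z, ∑ f₂ : Lb, (if Disjoint (vs f₁) B then KF u h m f₁ (t / 2) x z else 0) *
          (if Disjoint (vs f₂) B then KF u h m f₂ (t / 2) z y else 0) := fun f₁ =>
      (integral_finset_sum _ (fun f₂ _ => hint f₁ f₂)).symm
    simp_rw [h3]
    rw [← integral_finset_sum _ (fun f₁ _ => integrable_finset_sum _ (fun f₂ _ => hint f₁ f₂))]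
    rw [Ker]
    congr 1
    funext z
    rw [ih _ x z ht2, ih _ z y ht2, Finset.sum_mul_sum]

theorem kfb : KfbStatement := by
  intro u h m
  refine ⟨(kf_basic u h m).1, fun t x y ht => ?_⟩
  obtain ⟨a, b, c⟩ := (kf_basic u h m).2 t x y ht
  exact ⟨a, b, c, fun B => kf_ker u h m t x y ht B⟩

end Pool.Agent.XQ.GI.H48
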