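import Pool.Agent.Helper35_XQ.StmtAH

/-!
Squad XQ (MP_5b0138_an), Part AH, module KER (helper48): Laplace transform of the kernel of the paths
in the wedge of opening `α` which avoid side `2` (the real axis) and visit side `1`, from the symmetric
position by a rotation.
-/

set_option autoImplicit false

namespace Pool.Agent.XQ.AH.H48

open MeasureTheory Complex Filter Topology Pool.Agent.H62T Pool.Agent.H60K Pool.Agent.H38KL
open scoped ENNReal NNReal

lemma norm_rot (w : ℂ) (hw : ‖w‖ = 1) (a b : ℂ) : ip (a * w) (b * w) = ip a b := by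
  have h1 : w.re ^ 2 + w.im ^ 2 = 1 := by
    have := Complex.sq_norm w
    rw [hw, Complex.normSq_apply] at this
    nlinarith
  unfold ip
  simp only [Complex.mul_re, Complex.mul_im]
  have : (a.re * w.re - a.im * w.im) * (b.re * w.re - b.im * w.im)
      + (a.re * w.im + a.im * w.re) * (b.re * w.im + b.im * w.re)
      = (a.re * b.re + a.im * b.im) * (w.re ^ 2 + w.im ^ 2) := by ring
  rw [this, h1, mul_one]

/-- multiplication by a number of modulus one -/
noncomputable def rot (w : ℂ) (hw : ‖w‖ = 1) : ℂ ≃ᵢ ℂ :=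
  IsometryEquiv.mk' (fun z => z * w) (fun z => z * w⁻¹)
    (fun z => by
      have : w ≠ 0 := by
        rintro rfl
        simp at hw
      field_simp)
    (Isometry.of_dist_eq fun a b => by
      rw [Complex.dist_eq, Complex.dist_eq, ← sub_mul, norm_mul, hw, mul_one])

lemma rot_apply (w : ℂ) (hw : ‖w‖ = 1) (z : ℂ) : rot w hw z = z * w := rfl

lemma us_rot (α : ℝ) (s : Fin 3) (hs : s = 1 ∨ s = 2) :
    us α 0 s = us (α / 2) (α / 2) s * exp ((α / 2 : ℝ) * I) := by
  rcases hs with rfl | rfl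
  · have h1 : us α 0 1 = I * exp (α * I) := by simp [us]
    have h2 : us (α / 2) (α / 2) 1 = I * exp ((α / 2 : ℝ) * I) := by simp [us]
    rw [h1, h2, mul_assoc, ← Complex.exp_add]
    congr 2
    push_cast
    ring
  · have h1 : us α 0 2 = -(I * exp (-(((0 : ℝ) : ℂ) * I))) := by simp [us]
    have h2 : us (α / 2) (α / 2) 2 = -(I * exp (-(((α / 2 : ℝ) : ℂ) * I))) := by simp [us]
    rw [h1, h2, neg_mul, mul_assoc, ← Complex.exp_add]
    congr 3
    push_cast
    ring

lemma Dm_rot (α d : ℝ) (B : Finset (Fin 3)) (hB : (0 : Fin 3) ∉ B)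
    (hw : ‖exp ((α / 2 : ℝ) * I)‖ = 1) :
    Dm (us α 0) (hh d) B = rot (exp ((α / 2 : ℝ) * I)) hw '' Dm (us (α / 2) (α / 2)) (hh d) B := by
  have key : ∀ z : ℂ, z * exp ((α / 2 : ℝ) * I) ∈ Dm (us α 0) (hh d) B ↔
      z ∈ Dm (us (α / 2) (α / 2)) (hh d) B := by
    intro z
    unfold Dm
    simp only [Set.mem_ofPred_eq]
    refine forall_congr' fun s => forall_congr' fun hs => ?_
    have hs' : s = 1 ∨ s = 2 := by
      fin_cases s
      · exact absurd hs hB
      · left; rfl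
      · right; rfl
    rw [us_rot α s hs', norm_rot _ hw]
  ext x
  constructor
  · intro hx
    refine ⟨(rot (exp ((α / 2 : ℝ) * I)) hw).symm x, ?_, IsometryEquiv.apply_symm_apply _ x⟩
    rw [← key, ← rot_apply _ hw, IsometryEquiv.apply_symm_apply]
    exact hx
  · rintro ⟨z, hz, rfl⟩
    rw [rot_apply, key]
    exact hz

lemma pB_rot (α d t : ℝ) (B : Finset (Fin 3)) (hB : (0 : Fin 3) ∉ B) (x y : ℂ) :
    pB (us α 0) (hh d) B t (x * exp ((α / 2 : ℝ) * I)) (y * exp ((α / 2 : ℝ) * I))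
      = pB (us (α / 2) (α / 2)) (hh d) B t x y := by
  have hw : ‖exp ((α / 2 : ℝ) * I)‖ = 1 := Complex.norm_exp_ofReal_mul_I _
  unfold pB
  rw [Dm_rot α d B hB hw, ← rot_apply _ hw x, ← rot_apply _ hw y]
  exact H53.pD_isom _ _ _ _ _

lemma kME_rot (α d t : ℝ) (x y : ℂ) :
    kME (us α 0) (hh d) {1} {2} t (x * exp ((α / 2 : ℝ) * I)) (y * exp ((α / 2 : ℝ) * I))
      = kME (us (α / 2) (α / 2)) (hh d) {1} {2} t x y := by
  unfold kME
  refine Finset.sum_congr rfl fun B hB => ?_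
  rw [pB_rot]
  rw [Finset.mem_powerset] at hB
  intro h0
  rw [Finset.mem_union] at h0
  rcases h0 with h0 | h0
  · simp at h0
  · have := hB h0
    simp at this

/-- KER -/
theorem ker : AH.KerStatement := by
  intro α d κ r r' ψ ψ' hα hα' hκ hr hr' h1 h2 h3 h4
  have hK := (H60K.H38.kerAll (α / 2) (α / 2) d κ r r' (ψ - α / 2) (ψ' - α / 2) (by linarith)
    (by linarith) (by linarith) hκ hr hr' (by linarith) (by linarith) (by linarith)
    (by linarith)).2.2
  have e1 : ∀ (s φ : ℝ), (s : ℂ) * exp (φ * I) = (s : ℂ) * exp (((φ - α / 2 : ℝ) : ℂ) * I)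
      * exp ((α / 2 : ℝ) * I) := by
    intro s φ
    rw [mul_assoc, ← Complex.exp_add]
    congr 2
    push_cast
    ring
  have e2 : ∀ t : ℝ, kME (us α 0) (hh d) {1} {2} t (r * exp (ψ * I)) (r' * exp (ψ' * I))
      = kME (us (α / 2) (α / 2)) (hh d) {1} {2} t (r * exp (((ψ - α / 2 : ℝ) : ℂ) * I))
        (r' * exp (((ψ' - α / 2 : ℝ) : ℂ) * I)) := by
    intro t
    rw [e1 r ψ, e1 r' ψ', kME_rot]
  simp only [e2]
  rw [hK]
  congr 1
  refine setIntegral_congr_fun measurableSet_Ioi fun τ _ => ?_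
  simp only [mm]
  rw [show ψ - α / 2 + α / 2 = ψ by ring, show ψ' - α / 2 + α / 2 = ψ' by ring,
    show α / 2 + α / 2 = α by ring]

end Pool.Agent.XQ.AH.H48
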