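import Pool.Agent.Helper35_XQ.StmtAH

/-!
Squad XQ (MP_5b0138_an), Part AH, module SYM (helper48): a window which is symmetric with respect to the
real axis.
-/

set_option autoImplicit false

namespace Pool.Agent.XQ.AH.H48

open MeasureTheory Complex Filter Topology Pool.Agent.H62T Pool.Agent.H60K
open scoped ENNReal NNReal

lemma G_meas (a : ℝ) : Measurable (G a) := by
  unfold G
  fun_prop

lemma G_nonneg {a : ℝ} (ha : 0 < a) (z : ℂ) : 0 ≤ G a z := by
  unfold G
  have := Real.pi_pos
  positivity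

lemma G_le {a : ℝ} (ha : 0 < a) (z : ℂ) : G a z ≤ 1 / (4 * Real.pi * a) := by
  unfold G
  have := Real.pi_pos
  gcongr
  rw [Real.exp_le_one_iff]
  have : 0 ≤ ‖z‖ ^ 2 := sq_nonneg _
  rw [neg_div]
  have : 0 ≤ ‖z‖ ^ 2 / (4 * a) := by positivity
  linarith

lemma G_conj (a : ℝ) (z : ℂ) : G a ((starRingEnd ℂ) z) = G a z := by
  unfold G
  rw [Complex.norm_conj]

lemma Rw_meas (ξ1 δ ζ1 ζ2 : ℝ) : MeasurableSet (Rw ξ1 δ ζ1 ζ2) := by
  have h1 : Measurable fun x : ℂ => |x.re - ξ1| :=
    (continuous_abs.comp (Complex.continuous_re.sub continuous_const)).measurable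
  have h2 := Complex.measurable_im
  exact (measurableSet_lt h1 measurable_const).inter
    ((measurableSet_lt measurable_const h2).inter (measurableSet_lt h2 measurable_const))

lemma Rw_fin (ξ1 δ ζ1 ζ2 : ℝ) : volume (Rw ξ1 δ ζ1 ζ2) ≠ ⊤ := by
  have hK : IsCompact (Set.Icc (ξ1 - δ) (ξ1 + δ) ×ℂ Set.Icc (-ζ2) ζ1) :=
    isCompact_Icc.reProdIm isCompact_Icc
  refine ((measure_mono fun x hx => ?_).trans_lt hK.measure_lt_top).ne
  obtain ⟨h1, h2, h3⟩ := hx
  rw [abs_lt] at h1
  rw [Complex.mem_reProdIm]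
  exact ⟨⟨by linarith, by linarith⟩, ⟨h2.le, h3.le⟩⟩

lemma conj_mem {ξ1 δ ζ : ℝ} {x : ℂ} (hx : x ∈ Rw ξ1 δ ζ ζ) : (starRingEnd ℂ) x ∈ Rw ξ1 δ ζ ζ := by
  obtain ⟨h1, h2, h3⟩ := hx
  refine ⟨by simpa using h1, ?_, ?_⟩
  · rw [Complex.conj_im]
    linarith
  · rw [Complex.conj_im]
    linarith

lemma half_sub {ξ1 δ ζ : ℝ} {x : ℂ} (hx : x ∈ Rw ξ1 δ ζ 0) : x ∈ Rw ξ1 δ ζ ζ := by
  obtain ⟨h1, h2, h3⟩ := hx
  exact ⟨h1, by linarith, h3⟩

lemma axis_null : volume {x : ℂ | x.im = 0} = 0 := by
  have h := Complex.volume_preserving_equiv_real_prod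
  have h1 : {x : ℂ | x.im = 0} = Complex.measurableEquivRealProd ⁻¹'
      ((Set.univ : Set ℝ) ×ˢ ({0} : Set ℝ)) := by
    ext x
    simp [Complex.measurableEquivRealProd_apply]
  rw [h1, h.measure_preimage (by
    exact (MeasurableSet.univ.prod (measurableSet_singleton 0)).nullMeasurableSet)]
  rw [Measure.volume_eq_prod, Measure.prod_prod]
  simp

/-- the integral over the symmetric window -/
lemma int_sym {ξ1 δ ζ : ℝ} {f : ℂ → ℝ} (hf : IntegrableOn f (Rw ξ1 δ ζ ζ)) :
    ∫ x in Rw ξ1 δ ζ ζ, f x = ∫ x in Rw ξ1 δ ζ 0, (f x + f ((starRingEnd ℂ) x)) := by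
  have hmp : MeasurePreserving (fun x : ℂ => (starRingEnd ℂ) x) volume volume := by
    have := Complex.conjLIE.measurePreserving
    exact this
  have hemb : MeasurableEmbedding (fun x : ℂ => (starRingEnd ℂ) x) :=
    Complex.conjLIE.toHomeomorph.measurableEmbedding
  set S : Set ℂ := Rw ξ1 δ ζ 0 with hS
  set S' : Set ℂ := (fun x : ℂ => (starRingEnd ℂ) x) ⁻¹' S with hS'
  have hSm : MeasurableSet S := Rw_meas _ _ _ _
  have hS'm : MeasurableSet S' := hmp.measurable hSm
  have hdisj : Disjoint S S' := by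
    rw [Set.disjoint_left]
    rintro x ⟨_, h2, _⟩ ⟨_, h3, _⟩
    simp only [Complex.conj_im] at h3
    linarith
  have hae : Rw ξ1 δ ζ ζ =ᵐ[volume] (S ∪ S' : Set ℂ) := by
    have h0 : ∀ᵐ x : ℂ, x.im ≠ 0 := by
      rw [ae_iff]
      simpa using axis_null
    filter_upwards [h0] with x hx
    refine propext ?_
    constructor
    · rintro ⟨h1, h2, h3⟩
      rcases lt_or_gt_of_ne hx with h | h
      · right
        show (starRingEnd ℂ) x ∈ S
        refine ⟨by simpa using h1, ?_, ?_⟩
        · rw [Complex.conj_im]; linarith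
        · rw [Complex.conj_im]; linarith
      · left
        exact ⟨h1, by linarith, h3⟩
    · rintro (h | h)
      · exact half_sub h
      · have := conj_mem (half_sub (x := (starRingEnd ℂ) x) h)
        rwa [Complex.conj_conj] at this
  have hsub : S ⊆ Rw ξ1 δ ζ ζ := fun x hx => half_sub hx
  have hsub' : S' ⊆ Rw ξ1 δ ζ ζ := fun x hx => by
    have := conj_mem (half_sub (x := (starRingEnd ℂ) x) hx)
    rwa [Complex.conj_conj] at this
  have hi : IntegrableOn f S := hf.mono_set hsub
  have hi' : IntegrableOn f S' := hf.mono_set hsub'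
  have hSS : (fun x : ℂ => (starRingEnd ℂ) x) ⁻¹' S' = S := by
    ext x
    simp [hS']
  have hi2 : IntegrableOn (fun x => f ((starRingEnd ℂ) x)) S := by
    have := (hmp.integrableOn_comp_preimage hemb (f := f) (s := S')).2 hi'
    rw [hSS] at this
    exact this
  rw [setIntegral_congr_set hae, setIntegral_union hdisj hS'm hi hi', integral_add hi hi2]
  congr 1
  have := hmp.setIntegral_preimage_emb hemb f S'
  rw [hSS] at this
  exact this.symm

/-- SYM -/
theorem sym : AH.SymStatement := by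
  intro a ξ1 δ ζ M F ha hF h
  set C : ℝ := 1 / (4 * Real.pi * a) with hC
  have hC0 : 0 ≤ C := by
    have := Real.pi_pos
    positivity
  set W : Set ℂ := Rw ξ1 δ ζ ζ with hW
  set S : Set ℂ := Rw ξ1 δ ζ 0 with hS
  have hWm : MeasurableSet W := Rw_meas _ _ _ _
  have hSm : MeasurableSet S := Rw_meas _ _ _ _
  have hWf : volume W ≠ ⊤ := Rw_fin _ _ _ _
  have hSf : volume S ≠ ⊤ := Rw_fin _ _ _ _
  have hGm := G_meas a
  have hm1 : Measurable (Function.uncurry fun x y : ℂ => G a (x - y) * F x y) := by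
    have : Measurable fun p : ℂ × ℂ => G a (p.1 - p.2) :=
      hGm.comp (measurable_fst.sub measurable_snd)
    exact this.mul hF
  have hconj : Measurable fun x : ℂ => (starRingEnd ℂ) x := Complex.continuous_conj.measurable
  have hm2 : Measurable (Function.uncurry fun x y : ℂ =>
      (G a (x - y) - G a (x - (starRingEnd ℂ) y)) * F x y) := by
    have h1 : Measurable fun p : ℂ × ℂ => G a (p.1 - p.2) :=
      hGm.comp (measurable_fst.sub measurable_snd)
    have h2 : Measurable fun p : ℂ × ℂ => G a (p.1 - (starRingEnd ℂ) p.2) :=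
      hGm.comp (measurable_fst.sub (hconj.comp measurable_snd))
    exact (h1.sub h2).mul hF
  -- bounds
  have hGb : ∀ z, |G a z| ≤ C := fun z => by
    rw [abs_of_nonneg (G_nonneg ha z)]
    exact G_le ha z
  have hb1 : ∀ x ∈ W, ∀ y ∈ W, |G a (x - y) * F x y| ≤ C * M := by
    intro x hx y hy
    rw [abs_mul]
    exact mul_le_mul (hGb _) (h x hx y hy).1 (abs_nonneg _) hC0
  have hb2 : ∀ x ∈ W, ∀ y ∈ S,
      |(G a (x - y) - G a (x - (starRingEnd ℂ) y)) * F x y| ≤ (C + C) * M := by
    intro x hx y hy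
    rw [abs_mul]
    refine mul_le_mul ?_ (h x hx y (half_sub hy)).1 (abs_nonneg _) (by linarith)
    refine (abs_sub _ _).trans ?_
    exact add_le_add (hGb _) (hGb _)
  set Ψ : ℂ → ℝ := fun x => ∫ y in S,
    (G a (x - y) - G a (x - (starRingEnd ℂ) y)) * F x y with hΨ
  -- inner integral
  have hin : ∀ x ∈ W, ∫ y in W, G a (x - y) * F x y = Ψ x := by
    intro x hx
    have hI : IntegrableOn (fun y => G a (x - y) * F x y) W := by
      refine Measure.integrableOn_of_bounded hWf
        (hm1.comp (measurable_const.prodMk measurable_id)).aestronglyMeasurable (M := C * M) ?_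
      filter_upwards [ae_restrict_mem hWm] with y hy
      exact hb1 x hx y hy
    rw [int_sym hI]
    refine setIntegral_congr_fun hSm fun y hy => ?_
    have := (h x hx y (half_sub hy)).2.2
    rw [this]
    ring
  rw [setIntegral_congr_fun hWm hin]
  have hΨm : StronglyMeasurable Ψ :=
    StronglyMeasurable.integral_prod_right (ν := volume.restrict S) hm2.stronglyMeasurable
  have hΨi : IntegrableOn Ψ W := by
    refine Measure.integrableOn_of_bounded hWf hΨm.aestronglyMeasurable
      (M := (C + C) * M * volume.real S) ?_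
    filter_upwards [ae_restrict_mem hWm] with x hx
    exact norm_setIntegral_le_of_norm_le_const hSf.lt_top fun y hy => hb2 x hx y hy
  rw [int_sym hΨi]
  have hsymm : ∀ x ∈ S, Ψ x + Ψ ((starRingEnd ℂ) x) = 2 * Ψ x := by
    intro x hx
    have : Ψ ((starRingEnd ℂ) x) = Ψ x := by
      simp only [hΨ]
      refine setIntegral_congr_fun hSm fun y hy => ?_
      have h1 := (h x (half_sub hx) y (half_sub hy)).2.1
      rw [h1]
      have e1 : G a ((starRingEnd ℂ) x - y) = G a (x - (starRingEnd ℂ) y) := by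
        rw [← G_conj a (x - (starRingEnd ℂ) y), map_sub, Complex.conj_conj]
      have e2 : G a ((starRingEnd ℂ) x - (starRingEnd ℂ) y) = G a (x - y) := by
        rw [← map_sub, G_conj]
      rw [e1, e2]
      ring
    rw [this]
    ring
  rw [setIntegral_congr_fun hSm hsymm, integral_const_mul]
  ring

end Pool.Agent.XQ.AH.H48
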